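import Pool.Agent.Helper79.ForbFinal

set_option autoImplicit false

/-!
Erasing rules cannot be eliminated from forbidding grammars: some forbidding grammar generates a
language which, up to the empty word, no propagating forbidding grammar generates.
-/

namespace Pool.Agent.Results.MP_9d0328_lc.ForbiddingErasing

open Pool.Agent.Helper79.Forb

/-- There are a finite alphabet `T` and a forbidding grammar `g` over `T` such that no propagating
forbidding grammar over `T` generates the language of `g` up to the empty word. -/
theorem result : ∃ (T : Type) (_ : Finite T) (g : ForbiddingGrammar T),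
    ∀ g' : ForbiddingGrammar T, g'.IsPropagating → g'.language \ {[]} ≠ g.language \ {[]} := by
  refine ⟨Tm, inferInstance, LM.machine.grammar, ?_⟩
  intro g' hg' heq
  apply ForbiddingGrammar.no_propagating g' hg'
  intro w hw
  have h1 : w ∈ g'.language \ {[]} ↔ w ∈ LM.machine.grammar.language \ {[]} := by
    rw [heq]; exact Iff.rfl
  rw [lang_eq] at h1
  constructor
  · intro h
    exact (h1.mp ⟨h, hw⟩).1
  · intro h
    exact (h1.mpr ⟨h, hw⟩).1

end Pool.Agent.Results.MP_9d0328_lc.ForbiddingErasing
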